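import Pool.Agent.H643R2.EX.Fin

/-! # Arbitrary finite alphabets with at least two letters -/

namespace Pool.Agent.H643R2.EX

open Pool.Agent.H643R2.SH Pool.Agent.H643R2.BX Pool.Agent.H643R2.DX

variable {A : Type}

/-- inverse image under renaming of the letters -/
def CM (i : Fin 2 → A) (K : Language A) : Language (Fin 2) := {w | w.map i ∈ K}

theorem mem_CM {i : Fin 2 → A} {K : Language A} {w : List (Fin 2)} :
    w ∈ CM i K ↔ w.map i ∈ K := Iff.rfl

theorem CM_mul (i : Fin 2 → A) (K L : Language A) : CM i (K * L) = CM i K * CM i L := by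
  ext w
  rw [mem_CM, Language.mem_mul, Language.mem_mul]
  constructor
  · rintro ⟨x, hx, y, hy, h⟩
    obtain ⟨x', y', rfl, rfl, rfl⟩ := List.map_eq_append_iff.1 h.symm
    exact ⟨x', hx, y', hy, rfl⟩
  · rintro ⟨x, hx, y, hy, rfl⟩
    exact ⟨_, hx, _, hy, by rw [List.map_append]⟩

theorem CM_star_mem {i : Fin 2 → A} {K : Language A} {w : List (Fin 2)}
    (h : w ∈ KStar.kstar (CM i K)) : w.map i ∈ KStar.kstar K := by
  rw [Language.mem_kstar] at h
  obtain ⟨l, rfl, hl⟩ := h
  induction l with
  | nil => exact Language.nil_mem_kstar _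
  | cons x l ih =>
    rw [List.flatten_cons, List.map_append]
    exact star_append (star_base (hl x (by simp))) (ih (fun y hy => hl y (by simp [hy])))

theorem CM_star (i : Fin 2 → A) (K : Language A) :
    CM i (KStar.kstar K) = KStar.kstar (CM i K) := by
  ext w
  constructor
  · intro h
    rw [mem_CM, Language.mem_kstar] at h
    obtain ⟨l, hw, hl⟩ := h
    induction l generalizing w with
    | nil =>
      rw [List.flatten_nil] at hw
      have : w = [] := by simpa using hw
      subst this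
      exact Language.nil_mem_kstar _
    | cons x l ih =>
      rw [List.flatten_cons] at hw
      obtain ⟨x', y', rfl, hx, hy⟩ := List.map_eq_append_iff.1 hw
      have h1 : x' ∈ CM i K := by
        rw [mem_CM, hx]
        exact hl x (by simp)
      exact star_append (star_base h1) (ih y' hy (fun y hy => hl y (by simp [hy])))
  · exact CM_star_mem

theorem CM_pow_mem {i : Fin 2 → A} {K : Language A} {n : ℕ} {w : List (Fin 2)}
    (h : w ∈ (CM i K) ^ n) : w.map i ∈ K ^ n := by
  induction n generalizing w with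
  | zero =>
    rw [pow_zero, Language.mem_one] at h ⊢
    rw [h]; rfl
  | succ n ih =>
    rw [pow_succ, Language.mem_mul] at h ⊢
    obtain ⟨x, hx, y, hy, rfl⟩ := h
    exact ⟨_, ih hx, _, hy, by rw [List.map_append]⟩

theorem CM_delay {i : Fin 2 → A} (hi : Function.Injective i) {K : Language A}
    (hK : IsDelay K) : IsDelay (CM i K) := by
  obtain ⟨h0, ⟨d1, h1⟩, ⟨d2, h2⟩⟩ := hK
  refine ⟨h0, ⟨d1, ?_⟩, ⟨d2, ?_⟩⟩
  · intro x hx x' hx' y hy z hz u h
    apply List.map_injective_iff.2 hi
    apply h1 _ hx _ hx' _ (CM_pow_mem hy) _ (CM_star_mem hz) (u.map i)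
    rw [← List.map_append, ← List.map_append, ← List.map_append, h]
  · intro x hx x' hx' y hy z hz u h
    apply List.map_injective_iff.2 hi
    apply h2 _ hx _ hx' _ (CM_pow_mem hy) _ (CM_star_mem hz) (u.map i)
    rw [← List.map_append, ← List.map_append, ← List.map_append, h]

theorem EH_CM {i : Fin 2 → A} (hi : Function.Injective i) (E : GRE A) (hE : DStars E) :
    ∃ F : GRE (Fin 2), DStars F ∧ F.height ≤ E.height ∧ F.lang = CM i E.lang := by
  classical
  induction E with
  | zero =>
    refine ⟨.zero, trivial, le_refl _, ?_⟩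
    ext w
    exact ⟨fun h => absurd h (Language.notMem_zero w), fun h => absurd h (Language.notMem_zero _)⟩
  | one =>
    refine ⟨.one, trivial, le_refl _, ?_⟩
    ext w
    rw [mem_CM]
    simp only [GRE.lang, Language.mem_one]
    simp
  | char a =>
    by_cases h : ∃ j, i j = a
    · obtain ⟨j, rfl⟩ := h
      refine ⟨.char j, trivial, le_refl _, ?_⟩
      ext w
      rw [mem_CM]
      show w = [j] ↔ w.map i = [i j]
      constructor
      · rintro rfl; rfl
      · intro h
        apply List.map_injective_iff.2 hi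
        simpa using h
    · refine ⟨.zero, trivial, Nat.zero_le _, ?_⟩
      ext w
      rw [mem_CM]
      constructor
      · intro h'; exact absurd h' (Language.notMem_zero w)
      · intro h'
        exfalso
        have h2 : w.map i = [a] := h'
        apply h
        have : a ∈ w.map i := by rw [h2]; simp
        obtain ⟨j, _, hj⟩ := List.mem_map.1 this
        exact ⟨j, hj⟩
  | union E F ihE ihF =>
    obtain ⟨E', a1, a2, a3⟩ := ihE hE.1
    obtain ⟨F', b1, b2, b3⟩ := ihF hE.2
    refine ⟨.union E' F', ⟨a1, b1⟩, max_le_max a2 b2, ?_⟩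
    simp only [GRE.lang, a3, b3]
    rfl
  | inter E F ihE ihF =>
    obtain ⟨E', a1, a2, a3⟩ := ihE hE.1
    obtain ⟨F', b1, b2, b3⟩ := ihF hE.2
    refine ⟨.inter E' F', ⟨a1, b1⟩, max_le_max a2 b2, ?_⟩
    simp only [GRE.lang, a3, b3]
    rfl
  | cat E F ihE ihF =>
    obtain ⟨E', a1, a2, a3⟩ := ihE hE.1
    obtain ⟨F', b1, b2, b3⟩ := ihF hE.2
    refine ⟨.cat E' F', ⟨a1, b1⟩, max_le_max a2 b2, ?_⟩
    simp only [GRE.lang, a3, b3, CM_mul]
  | compl E ih =>
    obtain ⟨E', a1, a2, a3⟩ := ih hE
    refine ⟨.compl E', a1, a2, ?_⟩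
    simp only [GRE.lang, a3]
    rfl
  | star E ih =>
    obtain ⟨E', a1, a2, a3⟩ := ih hE.1
    refine ⟨.star E', ⟨a1, ?_⟩, Nat.succ_le_succ a2, ?_⟩
    · rw [a3]
      exact CM_delay hi hE.2
    · simp only [GRE.lang, a3, CM_star]

/-- image under renaming of the letters -/
def MM (i : Fin 2 → A) (L : Language (Fin 2)) : Language A := {w | ∃ v ∈ L, v.map i = w}

theorem CM_MM {i : Fin 2 → A} (hi : Function.Injective i) (L : Language (Fin 2)) :
    CM i (MM i L) = L := by
  ext w
  constructor
  · rintro ⟨v, hv, h⟩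
    have := List.map_injective_iff.2 hi h
    rwa [← this]
  · intro h
    exact ⟨w, h, rfl⟩

theorem rFin_MM {i : Fin 2 → A} (hi : Function.Injective i) {L : Language (Fin 2)}
    (hL : RFin L) : RFin (MM i L) := by
  classical
  obtain ⟨M, hM, g, hg⟩ := hL
  refine ⟨Option M, inferInstance,
    fun u => if h : ∃ v : List (Fin 2), v.map i = u then some (g h.choose) else none, ?_⟩
  have key : ∀ u u' : List A,
      (if h : ∃ v : List (Fin 2), v.map i = u then some (g h.choose) else none) =
      (if h : ∃ v : List (Fin 2), v.map i = u' then some (g h.choose) else none) →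
      ∀ t, u ++ t ∈ MM i L → u' ++ t ∈ MM i L := by
    intro u u' h t
    rintro ⟨v, hv, hvt⟩
    obtain ⟨x, y, rfl, hx, hy⟩ := List.map_eq_append_iff.1 hvt
    have h1 : ∃ v : List (Fin 2), v.map i = u := ⟨x, hx⟩
    rw [dif_pos h1] at h
    by_cases h2 : ∃ v : List (Fin 2), v.map i = u'
    · rw [dif_pos h2] at h
      have h3 := Option.some.inj h
      have h4 : h1.choose = x := by
        apply List.map_injective_iff.2 hi
        rw [h1.choose_spec, hx]
      rw [h4] at h3
      have h5 := (hg _ _ h3 y).1 hv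
      exact ⟨h2.choose ++ y, h5, by rw [List.map_append, h2.choose_spec, hy]⟩
    · rw [dif_neg h2] at h
      exact absurd h (by simp)
  intro u u' h t
  exact ⟨key u u' h t, key u' u h.symm t⟩

theorem strictA [Finite A] {i : Fin 2 → A} (hi : Function.Injective i) (h : ℕ) :
    ∃ L : Language A, EH (h + 1) L ∧ ¬ EH h L := by
  by_contra hcon
  push Not at hcon
  obtain ⟨L, h1, h2⟩ := beyond' h
  have hreg : (MM i L).IsRegular := by
    obtain ⟨E, _, rfl⟩ := h1
    exact (rFin_MM hi (GRE.rFin E)).isRegular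
  obtain ⟨E, hE, hEL⟩ := exists_expr (MM i L) hreg
  obtain ⟨F, f1, f2, f3⟩ := collapse hcon E hE
  obtain ⟨F', g1, g2, g3⟩ := EH_CM hi F f1
  apply h2
  refine ⟨F', g1, g2.trans f2, ?_⟩
  rw [g3, f3, hEL, CM_MM hi]

theorem exactA [Finite A] {i : Fin 2 → A} (hi : Function.Injective i) (h : ℕ) :
    ∃ L : Language A, L.IsRegular ∧
    (∃ E : GRE A, DStars E ∧ E.height = h ∧ E.lang = L) ∧
    ∀ E : GRE A, DStars E → E.lang = L → h ≤ E.height := by
  cases h with
  | zero =>
    refine ⟨0, ?_, ⟨.zero, trivial, rfl, rfl⟩, fun _ _ _ => Nat.zero_le _⟩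
    exact Ex.isRegular Ex.zero
  | succ h =>
    obtain ⟨L, ⟨E, h1, h2, h3⟩, h4⟩ := strictA hi h
    refine ⟨L, ?_, ⟨E, h1, ?_, h3⟩, ?_⟩
    · rw [← h3]
      exact (GRE.rFin E).isRegular
    · by_contra hne
      exact h4 ⟨E, h1, by omega, h3⟩
    · intro F hF hFL
      by_contra hlt
      exact h4 ⟨F, hF, by omega, hFL⟩

end Pool.Agent.H643R2.EX
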