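import Pool.Agent.H643R2.DX.Univ

/-! # Codes with finite deciphering delay in both directions -/

namespace Pool.Agent.H643R2.EX

open Pool.Agent.H643R2.SH Pool.Agent.H643R2.BX Pool.Agent.H643R2.DX

variable {α : Type}

/-- `K` is a set of nonempty words with finite deciphering delay from left to right and from right
to left. -/
def IsDelay (K : Language α) : Prop :=
  [] ∉ K ∧
  (∃ d : ℕ, ∀ x ∈ K, ∀ x' ∈ K, ∀ y ∈ K ^ d, ∀ z ∈ KStar.kstar K, ∀ u : List α,
    x ++ y ++ u = x' ++ z → x = x') ∧
  (∃ d : ℕ, ∀ x ∈ K, ∀ x' ∈ K, ∀ y ∈ K ^ d, ∀ z ∈ KStar.kstar K, ∀ u : List α,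
    u ++ y ++ x = z ++ x' → x = x')

theorem flat_star {K : Language α} {l : List (List α)} (hl : ∀ y ∈ l, y ∈ K) :
    l.flatten ∈ KStar.kstar K := by
  rw [Language.mem_kstar]
  exact ⟨l, rfl, hl⟩

/-- the consequences which are used -/
structure FD (K : Language α) (D : ℕ) : Prop where
  nil : [] ∉ K
  irr : ∀ x ∈ K, ∀ z ∈ KStar.kstar K, z ≠ [] → x ++ z ∉ K
  one : 1 ≤ D
  wp : ∀ x ∈ KStar.kstar K, ∀ (l : List (List α)) (u : List α), D ≤ l.length →
    (∀ y ∈ l, y ∈ K) → x ++ l.flatten ++ u ∈ KStar.kstar K → l.flatten ++ u ∈ KStar.kstar K
  ws : ∀ x ∈ KStar.kstar K, ∀ (l : List (List α)) (u : List α), D ≤ l.length →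
    (∀ y ∈ l, y ∈ K) → u ++ l.flatten ++ x ∈ KStar.kstar K → u ++ l.flatten ∈ KStar.kstar K

theorem IsDelay.fd {K : Language α} (hK : IsDelay K) : ∃ D, FD K D := by
  obtain ⟨h0, ⟨d1, h1⟩, ⟨d2, h2⟩⟩ := hK
  refine ⟨max d1 d2 + 1, h0, ?_, by omega, ?_, ?_⟩
  · intro x hx z hz hne hxz
    rw [Language.mem_kstar] at hz
    obtain ⟨lz, rfl, hlz⟩ := hz
    have hall : ∀ y ∈ lz ++ List.replicate d1 (x ++ lz.flatten), y ∈ K := by
      intro y hy
      rcases List.mem_append.1 hy with hy | hy
      · exact hlz y hy
      · rw [List.eq_of_mem_replicate hy]; exact hxz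
    set M := lz ++ List.replicate d1 (x ++ lz.flatten) with hM
    have e1 : M = M.take d1 ++ M.drop d1 := (List.take_append_drop d1 M).symm
    have hlen : d1 ≤ M.length := by simp [hM]
    have h3 := h1 x hx (x ++ lz.flatten) hxz (M.take d1).flatten (by
      rw [Language.mem_pow]
      exact ⟨M.take d1, rfl, by simp [hlen], fun y hy => hall y (List.mem_of_mem_take hy)⟩)
      (List.replicate d1 (x ++ lz.flatten)).flatten (flat_star (by
        intro y hy
        rw [List.eq_of_mem_replicate hy]; exact hxz))
      (M.drop d1).flatten (by
        rw [List.append_assoc, ← List.flatten_append, ← e1, hM, List.flatten_append,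
          List.append_assoc])
    apply hne
    have h4 : x ++ lz.flatten = x ++ [] := by rw [List.append_nil]; exact h3.symm
    exact List.append_cancel_left h4
  · intro x hx l u hl hlK h
    rw [Language.mem_kstar] at hx
    obtain ⟨lx, rfl, hlx⟩ := hx
    induction lx with
    | nil => simpa using h
    | cons x1 lx ih =>
      apply ih (fun y hy => hlx y (by simp [hy]))
      rw [Language.mem_kstar] at h
      obtain ⟨m, hm, hmK⟩ := h
      cases m with
      | nil =>
        exfalso
        have : x1 = [] := by
          simp only [List.flatten_cons, List.flatten_nil, List.append_eq_nil_iff] at hm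
          tauto
        exact h0 (this ▸ hlx x1 (by simp))
      | cons x' m =>
        set M := lx ++ l with hM
        have e1 : M = M.take d1 ++ M.drop d1 := (List.take_append_drop d1 M).symm
        have hlen : d1 ≤ M.length := by rw [hM, List.length_append]; omega
        have hall : ∀ y ∈ M, y ∈ K := by
          intro y hy
          rcases List.mem_append.1 hy with hy | hy
          · exact hlx y (by simp [hy])
          · exact hlK y hy
        have e2 : x1 ++ (M.flatten ++ u) = x' ++ m.flatten := by
          rw [← List.flatten_cons, ← hm, hM]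
          simp [List.append_assoc]
        have h3 := h1 x1 (hlx x1 (by simp)) x' (hmK x' (by simp)) (M.take d1).flatten (by
          rw [Language.mem_pow]
          exact ⟨M.take d1, rfl, by simp [hlen], fun y hy => hall y (List.mem_of_mem_take hy)⟩)
          m.flatten (flat_star (fun y hy => hmK y (by simp [hy])))
          ((M.drop d1).flatten ++ u) (by
            rw [← e2, List.append_assoc, ← List.append_assoc (M.take d1).flatten,
              ← List.flatten_append, ← e1])
        subst h3
        have e3 := List.append_cancel_left e2
        have e4 : lx.flatten ++ l.flatten ++ u = m.flatten := by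
          rw [← e3, hM, List.flatten_append]
        rw [e4]
        exact flat_star (fun y hy => hmK y (by simp [hy]))
  · intro x hx l u hl hlK h
    rw [Language.mem_kstar] at hx
    obtain ⟨lx, rfl, hlx⟩ := hx
    induction lx using List.reverseRecOn with
    | nil => simpa using h
    | append_singleton lx x1 ih =>
      apply ih (fun y hy => hlx y (by simp [hy]))
      rw [Language.mem_kstar] at h
      obtain ⟨m, hm, hmK⟩ := h
      rcases List.eq_nil_or_concat m with rfl | ⟨m', x', rfl⟩
      · exfalso
        have : x1 = [] := by
          simp only [List.flatten_append, List.flatten_cons, List.flatten_nil,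
            List.append_eq_nil_iff] at hm
          tauto
        exact h0 (this ▸ hlx x1 (by simp))
      · rw [List.concat_eq_append] at hm hmK
        set M := l ++ lx with hM
        have hlen : d2 ≤ M.length := by rw [hM, List.length_append]; omega
        have e1 : M = M.take (M.length - d2) ++ M.drop (M.length - d2) :=
          (List.take_append_drop _ M).symm
        have hall : ∀ y ∈ M, y ∈ K := by
          intro y hy
          rcases List.mem_append.1 hy with hy | hy
          · exact hlK y hy
          · exact hlx y (by simp [hy])
        have e2 : (u ++ M.flatten) ++ x1 = m'.flatten ++ x' := by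
          have : m'.flatten ++ x' = (m' ++ [x']).flatten := by simp
          rw [this, ← hm, hM]
          simp [List.append_assoc]
        have h3 := h2 x1 (hlx x1 (by simp)) x' (hmK x' (by simp))
          (M.drop (M.length - d2)).flatten (by
          rw [Language.mem_pow]
          refine ⟨M.drop (M.length - d2), rfl, ?_, fun y hy => hall y (List.mem_of_mem_drop hy)⟩
          rw [List.length_drop]
          omega)
          m'.flatten (flat_star (fun y hy => hmK y (by simp [hy])))
          (u ++ (M.take (M.length - d2)).flatten) (by
            rw [← e2, List.append_assoc u, ← List.flatten_append, ← e1])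
        subst h3
        have e3 := List.append_cancel_right e2
        have e4 : u ++ l.flatten ++ lx.flatten = m'.flatten := by
          rw [← e3, hM, List.flatten_append, List.append_assoc]
        rw [e4]
        exact flat_star (fun y hy => hmK y (by simp [hy]))

/-- prefix codes with finite right-to-left delay are instances -/
theorem IsPD.isDelay {K : Language α} (hK : IsPD K) : IsDelay K := by
  refine ⟨hK.1, ⟨0, ?_⟩, ?_⟩
  · intro x hx x' hx' y hy z _ u h
    rw [pow_zero, Language.mem_one] at hy
    subst hy
    rw [List.append_nil] at h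
    rcases List.append_eq_append_iff.1 h with ⟨c, hc1, _⟩ | ⟨c, hc1, _⟩
    · have := hK.2.1 x c hx (hc1 ▸ hx')
      rw [hc1, this, List.append_nil]
    · have := hK.2.1 x' c hx' (hc1 ▸ hx)
      rw [hc1, this, List.append_nil]
  · have key : ∀ p z x x' : List α, p ∈ KStar.kstar K → z ∈ KStar.kstar K → x ∈ K → x' ∈ K →
        ∀ c, z = p ++ c → x = c ++ x' → x = x' := by
      intro p z x x' hp hz hx hx' c hc1 hc2
      rw [hc1] at hz
      have h1 := left_unitary hK hp hz
      rw [Language.mem_kstar] at h1
      obtain ⟨l, hl, hlK⟩ := h1
      cases l with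
      | nil =>
        rw [List.flatten_nil] at hl
        rw [hc2, hl, List.nil_append]
      | cons k l =>
        exfalso
        rw [List.flatten_cons] at hl
        have hk : k ∈ K := hlK k (by simp)
        have h2 : x = k ++ (l.flatten ++ x') := by rw [hc2, hl, List.append_assoc]
        have h3 := hK.2.1 k _ hk (h2 ▸ hx)
        have h4 := (List.append_eq_nil_iff.1 h3).2
        rw [h4] at hx'
        exact hK.1 hx'
    obtain ⟨d, hd⟩ := hK.2.2
    refine ⟨d, ?_⟩
    intro x hx x' hx' y hy z hz u h
    have h1 : u ++ y ++ x ∈ KStar.kstar K := by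
      rw [h]
      exact star_append hz (star_base hx')
    have h2 := hd u y x hy (star_base hx) h1
    rcases List.append_eq_append_iff.1 h with ⟨c, hc1, hc2⟩ | ⟨c, hc1, hc2⟩
    · exact key _ _ _ _ h2 hz hx hx' c hc1 hc2
    · exact (key _ _ _ _ hz h2 hx' hx c hc1 hc2).symm

end Pool.Agent.H643R2.EX
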