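import Pool.Agent.H643R2.EX.Main
import Pool.Agent.H643R2.BX.Fin

/-! # The hierarchy theorem for codes with finite deciphering delay -/

namespace Pool.Agent.H643R2.EX

open Pool.Agent.H643R2.SH Pool.Agent.H643R2.BX Pool.Agent.H643R2.DX

variable {α : Type}

theorem pstars_dstars {E : GRE α} (h : PStars E) : DStars E := by
  induction E with
  | zero => trivial
  | one => trivial
  | char a => trivial
  | union E F h1 h2 => exact ⟨h1 h.1, h2 h.2⟩
  | inter E F h1 h2 => exact ⟨h1 h.1, h2 h.2⟩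
  | cat E F h1 h2 => exact ⟨h1 h.1, h2 h.2⟩
  | compl E h1 => exact h1 h
  | star E h1 => exact ⟨h1 h.1, IsPD.isDelay h.2⟩

/-- every regular language has a restricted expression -/
theorem exists_expr {A : Type} [Finite A] (L : Language A) (hL : L.IsRegular) :
    ∃ E : GRE A, DStars E ∧ E.lang = L := by
  obtain ⟨E, h1, h2⟩ := universal L hL
  exact ⟨E, pstars_dstars h1, h2⟩

/-- `L` is denoted by a restricted expression of height at most `h` -/
def EH (h : ℕ) (L : Language α) : Prop := ∃ E : GRE α, DStars E ∧ E.height ≤ h ∧ E.lang = L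

theorem EH.mono {h k : ℕ} (hk : h ≤ k) {L : Language α} (hL : EH h L) : EH k L := by
  obtain ⟨E, h1, h2, h3⟩ := hL
  exact ⟨E, h1, h2.trans hk, h3⟩

/-- if one level adds nothing, then no later level does -/
theorem collapse {h : ℕ} (hc : ∀ L : Language α, EH (h + 1) L → EH h L) (E : GRE α)
    (hE : DStars E) : EH h E.lang := by
  induction E with
  | zero => exact ⟨.zero, trivial, Nat.zero_le _, rfl⟩
  | one => exact ⟨.one, trivial, Nat.zero_le _, rfl⟩
  | char a => exact ⟨.char a, trivial, Nat.zero_le _, rfl⟩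
  | union E F ihE ihF =>
    obtain ⟨E', a1, a2, a3⟩ := ihE hE.1
    obtain ⟨F', b1, b2, b3⟩ := ihF hE.2
    exact ⟨.union E' F', ⟨a1, b1⟩, max_le a2 b2, by simp [GRE.lang, a3, b3]⟩
  | inter E F ihE ihF =>
    obtain ⟨E', a1, a2, a3⟩ := ihE hE.1
    obtain ⟨F', b1, b2, b3⟩ := ihF hE.2
    exact ⟨.inter E' F', ⟨a1, b1⟩, max_le a2 b2, by simp [GRE.lang, a3, b3]⟩
  | cat E F ihE ihF =>
    obtain ⟨E', a1, a2, a3⟩ := ihE hE.1
    obtain ⟨F', b1, b2, b3⟩ := ihF hE.2
    exact ⟨.cat E' F', ⟨a1, b1⟩, max_le a2 b2, by simp [GRE.lang, a3, b3]⟩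
  | compl E ih =>
    obtain ⟨E', a1, a2, a3⟩ := ih hE
    exact ⟨.compl E', a1, a2, by simp [GRE.lang, a3]⟩
  | star E ih =>
    obtain ⟨E', a1, a2, a3⟩ := ih hE.1
    apply hc
    exact ⟨.star E', ⟨a1, by rw [a3]; exact hE.2⟩, Nat.succ_le_succ a2, by simp [GRE.lang, a3]⟩

/-- for every height there is a language beyond it, which even has an expression with stars only on
bifix codes -/
theorem beyond' (h : ℕ) : ∃ L : Language (Fin 2), Ex L ∧ ¬ EH h L := by
  have : NeZero (Nat.card (alternatingGroup (Fin 5))) := ⟨Nat.card_pos.ne'⟩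
  obtain ⟨p, q, hpq⟩ := a5_noncomm
  have hcard : Nat.card (Multiplicative (ZMod (Nat.card (alternatingGroup (Fin 5))))) =
      Nat.card (alternatingGroup (Fin 5)) := by
    rw [Nat.card_congr Multiplicative.toAdd, Nat.card_zmod]
  obtain ⟨e⟩ : Nonempty (Multiplicative (ZMod (Nat.card (alternatingGroup (Fin 5)))) ≃
      alternatingGroup (Fin 5)) := Finite.card_eq.1 hcard
  exact ⟨_, wn_ex e h 1, fun h3 => beyond e.surjective hpq h (h3.mono (Nat.le_succ h))⟩

theorem strict' (h : ℕ) : ∃ L : Language (Fin 2), EH (h + 1) L ∧ ¬ EH h L := by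
  by_contra hcon
  push Not at hcon
  obtain ⟨L, ⟨E, h0, h1⟩, h2⟩ := beyond' h
  apply h2
  rw [← h1]
  exact collapse hcon E (pstars_dstars (bifix_pstars h0))

theorem exact_height' (h : ℕ) : ∃ L : Language (Fin 2), L.IsRegular ∧
    (∃ E : GRE (Fin 2), DStars E ∧ E.height = h ∧ E.lang = L) ∧
    ∀ E : GRE (Fin 2), DStars E → E.lang = L → h ≤ E.height := by
  cases h with
  | zero =>
    refine ⟨0, ?_, ⟨.zero, trivial, rfl, rfl⟩, fun _ _ _ => Nat.zero_le _⟩
    exact Ex.isRegular Ex.zero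
  | succ h =>
    obtain ⟨L, ⟨E, h1, h2, h3⟩, h4⟩ := strict' h
    refine ⟨L, ?_, ⟨E, h1, ?_, h3⟩, ?_⟩
    · rw [← h3]
      exact (GRE.rFin E).isRegular
    · by_contra hne
      exact h4 ⟨E, h1, by omega, h3⟩
    · intro F hF hFL
      by_contra hlt
      exact h4 ⟨F, hF, by omega, hFL⟩

end Pool.Agent.H643R2.EX
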