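import Pool.Agent.H643R2.EX.Delay

/-! # The combinatorial step for codes with finite deciphering delay -/

namespace Pool.Agent.H643R2.EX

open Pool.Agent.H643R2.SH Pool.Agent.H643R2.BX Pool.Agent.H643R2.DX

variable {α : Type}

/-- products of at least `n` words of `K` -/
def KL (K : Language α) (n : ℕ) (x : List α) : Prop :=
  ∃ l : List (List α), x = l.flatten ∧ n ≤ l.length ∧ ∀ y ∈ l, y ∈ K

theorem KL.star {K : Language α} {n : ℕ} {x : List α} (h : KL K n x) : x ∈ KStar.kstar K := by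
  obtain ⟨l, rfl, _, h⟩ := h
  exact flat_star h

theorem KL.append {K : Language α} {m n : ℕ} {x y : List α} (h : KL K m x) (h' : KL K n y) :
    KL K (m + n) (x ++ y) := by
  obtain ⟨l, rfl, h1, h2⟩ := h
  obtain ⟨l', rfl, h1', h2'⟩ := h'
  refine ⟨l ++ l', by simp, by rw [List.length_append]; omega, ?_⟩
  intro y hy
  rcases List.mem_append.1 hy with hy | hy
  · exact h2 y hy
  · exact h2' y hy

theorem KL.of_star {K : Language α} {x : List α} (h : x ∈ KStar.kstar K) : KL K 0 x := by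
  rw [Language.mem_kstar] at h
  obtain ⟨l, h1, h2⟩ := h
  exact ⟨l, h1, Nat.zero_le _, h2⟩

theorem KL.of_ne {K : Language α} {x : List α} (h : x ∈ KStar.kstar K) (hx : x ≠ []) :
    KL K 1 x := by
  rw [Language.mem_kstar] at h
  obtain ⟨l, h1, h2⟩ := h
  refine ⟨l, h1, ?_, h2⟩
  cases l with
  | nil => exact absurd h1 hx
  | cons a l => simp

theorem KL.mono {K : Language α} {m n : ℕ} {x : List α} (h : KL K n x) (hm : m ≤ n) :
    KL K m x := by
  obtain ⟨l, h1, h2, h3⟩ := h
  exact ⟨l, h1, hm.trans h2, h3⟩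

theorem KL.split {K : Language α} {m n : ℕ} {x : List α} (h : KL K (m + n) x) :
    ∃ y z, x = y ++ z ∧ KL K m y ∧ KL K n z := by
  obtain ⟨l, rfl, h1, h2⟩ := h
  refine ⟨(l.take m).flatten, (l.drop m).flatten, ?_, ?_, ?_⟩
  · rw [← List.flatten_append, List.take_append_drop]
  · exact ⟨_, rfl, by rw [List.length_take]; omega, fun y hy => h2 y (List.mem_of_mem_take hy)⟩
  · exact ⟨_, rfl, by rw [List.length_drop]; omega, fun y hy => h2 y (List.mem_of_mem_drop hy)⟩

theorem KL.ne {K : Language α} (h0 : [] ∉ K) {n : ℕ} (hn : 1 ≤ n) {x : List α}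
    (h : KL K n x) : x ≠ [] := by
  obtain ⟨l, rfl, h1, h2⟩ := h
  cases l with
  | nil => simp at h1; omega
  | cons a l =>
    intro h
    rw [List.flatten_cons] at h
    exact h0 ((List.append_eq_nil_iff.1 h).1 ▸ h2 a (by simp))

theorem FD.wp' {K : Language α} {D : ℕ} (hK : FD K D) {x y u : List α}
    (hx : x ∈ KStar.kstar K) (hy : KL K D y) (h : x ++ (y ++ u) ∈ KStar.kstar K) :
    y ++ u ∈ KStar.kstar K := by
  obtain ⟨l, rfl, h1, h2⟩ := hy
  exact hK.wp x hx l u h1 h2 (by rwa [List.append_assoc])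

theorem FD.ws' {K : Language α} {D : ℕ} (hK : FD K D) {x y u : List α}
    (hx : x ∈ KStar.kstar K) (hy : KL K D y) (h : u ++ (y ++ x) ∈ KStar.kstar K) :
    u ++ y ∈ KStar.kstar K := by
  obtain ⟨l, rfl, h1, h2⟩ := hy
  exact hK.ws x hx l u h1 h2 (by rwa [List.append_assoc])

theorem cut_or_cover {K : Language α} {s w t : List α} (h : s ++ (w ++ t) ∈ KStar.kstar K) :
    (∃ w1 w2, w = w1 ++ w2 ∧ s ++ w1 ∈ KStar.kstar K ∧ w2 ++ t ∈ KStar.kstar K) ∨
    (∃ s1 s2 t1 t2, s = s1 ++ s2 ∧ t = t1 ++ t2 ∧ s1 ∈ KStar.kstar K ∧ s2 ++ w ++ t1 ∈ K ∧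
      t2 ∈ KStar.kstar K) := by
  rcases star_split h with ⟨h1, h2⟩ | ⟨u1, u2, a1, a2, e1, e2, e3, e4, e5⟩
  · exact Or.inl ⟨[], w, rfl, by simpa using h1, h2⟩
  · rcases List.append_eq_append_iff.1 e2 with ⟨c, hc1, hc2⟩ | ⟨c, hc1, hc2⟩
    · -- a1 = w ++ c, t = c ++ a2
      exact Or.inr ⟨u1, u2, c, a2, e1, hc2, e3, by rw [List.append_assoc, ← hc1]; exact e4, e5⟩
    · -- w = a1 ++ c, a2 = c ++ t
      refine Or.inl ⟨a1, c, hc1, ?_, by rw [← hc2]; exact e5⟩
      rw [e1, List.append_assoc]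
      exact star_append e3 (star_base e4)

/-- one of `N` occurrences of `w` is covered by a word of `K` -/
def Cov (K : Language α) (w p : List α) (N : ℕ) (T : List α) : Prop :=
  ∃ j j', j + 1 + j' = N ∧ ∃ s1 s2 t1 t2, p ++ pw w j = s1 ++ s2 ∧ pw w j' ++ T = t1 ++ t2 ∧
    s1 ∈ KStar.kstar K ∧ s2 ++ w ++ t1 ∈ K ∧ t2 ∈ KStar.kstar K

theorem chain {K : Language α} {w : List α} (hw : w ≠ []) (p : List α) (m : ℕ) :
    ∀ T, p ++ (pw w (2 * m + 1) ++ T) ∈ KStar.kstar K →
      Cov K w p (2 * m + 1) T ∨ ∃ a y b, pw w (2 * m + 1) = a ++ y ++ b ∧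
        p ++ a ∈ KStar.kstar K ∧ KL K m y ∧ b ++ T ∈ KStar.kstar K := by
  induction m with
  | zero =>
    intro T h
    rw [Nat.mul_zero, Nat.zero_add, pw_one] at h
    rcases cut_or_cover h with ⟨w1, w2, e, h1, h2⟩ | ⟨s1, s2, t1, t2, e1, e2, e3, e4, e5⟩
    · right
      refine ⟨w1, [], w2, ?_, h1, KL.of_star (Language.nil_mem_kstar _), h2⟩
      rw [Nat.mul_zero, Nat.zero_add, pw_one, e]; simp
    · left
      exact ⟨0, 0, rfl, s1, s2, t1, t2, by simpa using e1, by simpa using e2, e3, e4, e5⟩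
  | succ m ih =>
    intro T h
    have epw : pw w (2 * (m + 1) + 1) = pw w (2 * m + 1) ++ (w ++ w) := by
      have : 2 * (m + 1) + 1 = (2 * m + 1) + 2 := by ring
      rw [this, pw_add]
      congr 1
      rw [pw_succ, pw_one]
    have h' : p ++ (pw w (2 * m + 1) ++ (w ++ (w ++ T))) ∈ KStar.kstar K := by
      rw [epw] at h
      simpa [List.append_assoc] using h
    rcases ih _ h' with ⟨j, j', hj, s1, s2, t1, t2, e1, e2, e3, e4, e5⟩ | ⟨a, y, b, e0, f1, f2, f3⟩
    · left
      refine ⟨j, j' + 2, by omega, s1, s2, t1, t2, e1, ?_, e3, e4, e5⟩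
      rw [← e2, pw_add]
      have : pw w 2 = w ++ w := by rw [pw_succ, pw_one]
      rw [this]
      simp [List.append_assoc]
    · rcases cut_or_cover f3 with ⟨w1, w2, g1, g2, g3⟩ | ⟨s1, s2, t1, t2, g1, g2, g3, g4, g5⟩
      · rcases cut_or_cover g3 with ⟨w1', w2', k1, k2, k3⟩ | ⟨s1, s2, t1, t2, k1, k2, k3, k4, k5⟩
        · right
          refine ⟨a, y ++ ((b ++ w1) ++ (w2 ++ w1')), w2', ?_, f1, ?_, k3⟩
          · have e : w ++ w = (w1 ++ w2) ++ (w1' ++ w2') := by rw [← g1, ← k1]
            rw [epw, e0, e]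
            simp [List.append_assoc]
          · apply f2.append
            apply KL.of_ne (star_append g2 k2)
            intro h0
            apply hw
            simp only [List.append_eq_nil_iff] at h0
            rw [g1, h0.1.2, h0.2.1]
            rfl
        · left
          refine ⟨2 * m + 2, 0, by omega, p ++ a ++ y ++ (b ++ w1) ++ s1, s2, t1, t2, ?_, ?_,
            ?_, k4, k5⟩
          · have : 2 * m + 2 = (2 * m + 1) + 1 := rfl
            rw [this, pw_add, pw_one, e0]
            conv_lhs => rw [g1, k1]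
            simp [List.append_assoc]
          · simpa using k2
          · exact star_append (star_append (star_append f1 f2.star) g2) k3
      · left
        refine ⟨2 * m + 1, 1, by omega, p ++ a ++ y ++ s1, s2, t1, t2, ?_, ?_, ?_, g4, g5⟩
        · rw [e0, g1]
          simp [List.append_assoc]
        · rw [pw_one]; exact g2
        · exact star_append (star_append f1 f2.star) g3

/-- resolved cuts inside a power of `w` after the context `s` -/
def RH (K : Language α) (D : ℕ) (w s : List α) : Prop :=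
  ∃ n a y b, pw w n = a ++ y ++ b ∧ s ++ a ∈ KStar.kstar K ∧ KL K (D + D) y

theorem se_pw {L : Language α} {w : List α} (h : SE L (w ++ w) w) (j : ℕ) :
    SE L (w ++ pw w j) w := by
  induction j with
  | zero => simpa using SE.refl L w
  | succ j ih =>
    rw [pw_succ, ← List.append_assoc]
    exact (h.right _).trans ih

theorem mem_pw {W : Set (List α)} (hWc : ∀ x ∈ W, ∀ y ∈ W, x ++ y ∈ W) {w : List α}
    (hw : w ∈ W) (j : ℕ) : w ++ pw w j ∈ W := by
  induction j with
  | zero => simpa using hw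
  | succ j ih =>
    rw [pw_succ]
    exact hWc _ hw _ ih

section

variable {K : Language α} {D : ℕ} {W : Set (List α)} {w : List α}

theorem cov_of (hwne : w ≠ []) {r T : List α} (hr : RE (KStar.kstar K) (r ++ w) r)
    (hn : ¬ RH K D w r) (h : r ++ T ∈ KStar.kstar K) :
    ∃ N, Cov K w r N T := by
  have h1 : r ++ (pw w (2 * (D + D) + 1) ++ T) ∈ KStar.kstar K := by
    have := (pw_re hr (2 * (D + D) + 1) T).2 h
    rwa [List.append_assoc] at this
  rcases chain hwne r (D + D) T h1 with h2 | ⟨a, y, b, e0, f1, f2, _⟩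
  · exact ⟨_, h2⟩
  · exact absurd ⟨_, a, y, b, e0, f1, f2⟩ hn

theorem grow (hK : FD K D) (hWc : ∀ x ∈ W, ∀ y ∈ W, x ++ y ∈ W)
    (hWK : ∀ x ∈ W, ∀ y ∈ W, SE K x y) (hw : w ∈ W) (hwne : w ≠ [])
    (hww : SE (KStar.kstar K) (w ++ w) w) {r t Z : List α}
    (hr : RE (KStar.kstar K) (r ++ w) r) (hn : ¬ RH K D w r) (hZ : Z ∈ W)
    (h : r ++ t ∈ KStar.kstar K) : r ++ (w ++ Z ++ w) ++ t ∈ KStar.kstar K := by
  obtain ⟨N, j, j', _, s1, s2, t1, t2, e1, e2, e3, e4, e5⟩ := cov_of (D := D) hwne hr hn h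
  have hZ' : w ++ Z ++ w ∈ W := hWc _ (hWc _ hw _ hZ) _ hw
  have h1 : s2 ++ (w ++ Z ++ w) ++ t1 ∈ K := (hWK w hw _ hZ' s2 t1).1 e4
  have h2 : r ++ pw w j ++ ((w ++ Z ++ w) ++ (pw w j' ++ t)) ∈ KStar.kstar K := by
    rw [e1, e2]
    have := star_append e3 (star_append (star_base h1) e5)
    simpa [List.append_assoc] using this
  have h3 : r ++ ((w ++ Z ++ w) ++ (pw w j' ++ t)) ∈ KStar.kstar K := (pw_re hr j _).1 h2
  have h4 := ((se_pw hww j').left (w ++ Z)) r t
  have h5 : r ++ (w ++ Z ++ (w ++ pw w j')) ++ t ∈ KStar.kstar K := by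
    simpa [List.append_assoc] using h3
  have h6 := h4.1 h5
  simpa [List.append_assoc] using h6

theorem nrh_next (hK : FD K D) (hWc : ∀ x ∈ W, ∀ y ∈ W, x ++ y ∈ W)
    (hWK : ∀ x ∈ W, ∀ y ∈ W, SE K x y) (hw : w ∈ W) (hwne : w ≠ []) {r Z : List α}
    (hr : RE (KStar.kstar K) (r ++ w) r) (hn : ¬ RH K D w r) (hZ : Z ∈ W) :
    ¬ RH K D w (r ++ (w ++ Z ++ w)) := by
  rintro ⟨n, a, y, b, e0, f1, f2⟩
  have h1 : r ++ (Z ++ w ++ a) ∈ KStar.kstar K := by
    apply (hr _).1
    simpa [List.append_assoc] using f1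
  obtain ⟨N, j, j', _, s1, s2, t1, t2, e1, e2, e3, e4, e5⟩ := cov_of (D := D) hwne hr hn h1
  have hv : (w ++ pw w j') ++ Z ++ (w ++ pw w n) ∈ W :=
    hWc _ (hWc _ (mem_pw hWc hw j') _ hZ) _ (mem_pw hWc hw n)
  have h2 : s2 ++ ((w ++ pw w j') ++ Z ++ (w ++ pw w n)) ++ t1 ∈ K :=
    (hWK w hw _ hv s2 t1).1 e4
  have h3 : s2 ++ ((w ++ pw w j') ++ Z ++ (w ++ pw w n)) ++ t1 =
      (s2 ++ w ++ t1) ++ ((t2 ++ y) ++ (b ++ t1)) := by
    have e4' : (s2 ++ w ++ t1) ++ ((t2 ++ y) ++ (b ++ t1)) =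
        s2 ++ w ++ (t1 ++ t2) ++ y ++ b ++ t1 := by simp [List.append_assoc]
    rw [e4', ← e2, e0]
    simp [List.append_assoc]
  rw [h3] at h2
  have hy : KL K (D + D) (t2 ++ y) := by
    have := (KL.of_star e5).append f2
    simpa using this
  have hD := hK.one
  have h4 := hK.wp' (star_base e4) (hy.mono (by omega)) (star_base h2)
  refine hK.irr _ e4 _ h4 ?_ h2
  intro h
  exact KL.ne hK.nil (by omega) hy (List.append_eq_nil_iff.1 h).1

theorem nstable (hK : FD K D) (hWc : ∀ x ∈ W, ∀ y ∈ W, x ++ y ∈ W)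
    (hWK : ∀ x ∈ W, ∀ y ∈ W, SE K x y) (hw : w ∈ W) (hwne : w ≠ [])
    (hww : SE (KStar.kstar K) (w ++ w) w) {r Z : List α}
    (hr : RE (KStar.kstar K) (r ++ w) r) (hn : ¬ RH K D w r) (hZ : Z ∈ W)
    (hp : ∃ k, 0 < k ∧ SE (KStar.kstar K) (pw (w ++ Z ++ w) k) w) :
    RE (KStar.kstar K) (r ++ (w ++ Z ++ w)) r := by
  set Y := w ++ Z ++ w with hY
  have hYw : SE (KStar.kstar K) (Y ++ w) Y := by
    have := hww.left (w ++ Z)
    simpa [hY, List.append_assoc] using this
  have inv : ∀ i, RE (KStar.kstar K) (r ++ pw Y i ++ w) (r ++ pw Y i) ∧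
      ¬ RH K D w (r ++ pw Y i) := by
    intro i
    induction i with
    | zero => simpa using ⟨hr, hn⟩
    | succ i ih =>
      have e : r ++ pw Y (i + 1) = r ++ pw Y i ++ Y := by
        rw [pw_succ, ← pw_comm, List.append_assoc]
      rw [e]
      refine ⟨?_, nrh_next hK hWc hWK hw hwne ih.1 ih.2 hZ⟩
      have := hYw.re (r ++ pw Y i)
      simpa [List.append_assoc] using this
  have up : ∀ i t, r ++ pw Y i ++ t ∈ KStar.kstar K → r ++ pw Y (i + 1) ++ t ∈ KStar.kstar K := by
    intro i t h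
    have e : r ++ pw Y (i + 1) = r ++ pw Y i ++ Y := by
      rw [pw_succ, ← pw_comm, List.append_assoc]
    rw [e]
    exact grow hK hWc hWK hw hwne hww (inv i).1 (inv i).2 hZ h
  have up' : ∀ i j t, r ++ pw Y i ++ t ∈ KStar.kstar K →
      r ++ pw Y (i + j) ++ t ∈ KStar.kstar K := by
    intro i j t h
    induction j with
    | zero => exact h
    | succ j ih => exact up _ _ ih
  intro t
  constructor
  · intro h
    obtain ⟨k, hk, hk'⟩ := hp
    have h1 : r ++ pw Y 1 ++ t ∈ KStar.kstar K := by rw [pw_one]; exact h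
    have h2 := up' 1 (k - 1) t h1
    have h3 : 1 + (k - 1) = k := by omega
    rw [h3] at h2
    exact (hr t).1 ((hk' r t).1 h2)
  · intro h
    have h1 := up 0 t (by simpa using h)
    simpa [pw_one] using h1

theorem both_core (hK : FD K D) {c y b T : List α} (hy : KL K (D + D) y)
    (h1 : c ++ (y ++ b) ++ T ∈ KStar.kstar K) (h2 : (y ++ b) ++ T ∈ KStar.kstar K) :
    RE (KStar.kstar K) (c ++ (y ++ b)) (y ++ b) := by
  obtain ⟨y1, y2, rfl, hy1, hy2⟩ := hy.split
  have hv : y2 ++ (b ++ T) ∈ KStar.kstar K := by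
    apply hK.wp' hy1.star hy2
    simpa [List.append_assoc] using h2
  have hc : c ++ y1 ∈ KStar.kstar K := by
    apply hK.ws' hv hy1
    simpa [List.append_assoc] using h1
  intro z
  constructor
  · intro h
    have h3 : y2 ++ (b ++ z) ∈ KStar.kstar K := by
      apply hK.wp' hc hy2
      simpa [List.append_assoc] using h
    have := star_append hy1.star h3
    simpa [List.append_assoc] using this
  · intro h
    have h3 : y2 ++ (b ++ z) ∈ KStar.kstar K := by
      apply hK.wp' hy1.star hy2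
      simpa [List.append_assoc] using h
    have := star_append hc h3
    simpa [List.append_assoc] using this

theorem rh_re (hK : FD K D) {r : List α} (hr : RE (KStar.kstar K) (r ++ w) r) {n : ℕ}
    {a y b : List α} (e : pw w n = a ++ y ++ b) (h : r ++ a ∈ KStar.kstar K)
    (hy : KL K (D + D) y) : RE (KStar.kstar K) r (y ++ b) := by
  intro z
  rw [← pw_re hr n z, e]
  constructor
  · intro h1
    have := hK.wp' (x := r ++ a) (u := b ++ z) h (hy.mono (by omega)) (by
      simpa [List.append_assoc] using h1)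
    simpa [List.append_assoc] using this
  · intro h1
    have := star_append h h1
    simpa [List.append_assoc] using this

theorem both_hit (hK : FD K D) {r1 r2 T : List α} (hr1 : RE (KStar.kstar K) (r1 ++ w) r1)
    (hr2 : RE (KStar.kstar K) (r2 ++ w) r2) (c1 : RH K D w r1) (c2 : RH K D w r2)
    (h1 : r1 ++ T ∈ KStar.kstar K) (h2 : r2 ++ T ∈ KStar.kstar K) :
    RE (KStar.kstar K) r1 r2 := by
  obtain ⟨n, a, y, b, e, f, g⟩ := c1
  obtain ⟨n', a', y', b', e', f', g'⟩ := c2
  have q1 := rh_re hK hr1 e f g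
  have q2 := rh_re hK hr2 e' f' g'
  have m1 := (q1 T).1 h1
  have m2 := (q2 T).1 h2
  have E : (pw w n' ++ a) ++ (y ++ b) = (pw w n ++ a') ++ (y' ++ b') := by
    have h3 : pw w n' ++ pw w n = pw w n ++ pw w n' := by
      rw [← pw_add, ← pw_add, Nat.add_comm]
    calc (pw w n' ++ a) ++ (y ++ b) = pw w n' ++ (a ++ y ++ b) := by
          simp [List.append_assoc]
      _ = pw w n' ++ pw w n := by rw [← e]
      _ = pw w n ++ pw w n' := h3
      _ = pw w n ++ (a' ++ y' ++ b') := by rw [← e']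
      _ = (pw w n ++ a') ++ (y' ++ b') := by simp [List.append_assoc]
  rcases List.append_eq_append_iff.1 E with ⟨c, _, hc2⟩ | ⟨c, _, hc2⟩
  · -- y ++ b = c ++ (y' ++ b')
    have : RE (KStar.kstar K) (y ++ b) (y' ++ b') := by
      rw [hc2]
      apply both_core hK g' _ m2
      rw [← hc2]; exact m1
    exact q1.trans (this.trans q2.symm)
  · have : RE (KStar.kstar K) (y' ++ b') (y ++ b) := by
      rw [hc2]
      apply both_core hK g _ m1
      rw [← hc2]; exact m2
    exact q1.trans (this.symm.trans q2.symm)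

end

/-- The main combinatorial step: such a code cannot measure block values which depend on the
inner values in a non-affine way. -/
theorem fd_step {K : Language α} {D : ℕ} (hK : FD K D)
    {G' G : Type} [Group G'] [Group G]
    (V' : List α → G' → Prop) (V : List α → G → Prop) (f : G' → G) (a b : List α)
    (mul' : ∀ {u v g h}, V' u g → V' v h → V' (u ++ v) (g * h))
    (mul : ∀ {u v g h}, V u g → V v h → V (u ++ v) (g * h))
    (blk : ∀ {W k}, V' W k → V (a ++ W ++ b) (f k))
    (e : List α) (he1 : V e 1)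
    (inv : ∀ x g, V x g → ∃ y, V y g⁻¹ ∧ SE (KStar.kstar K) (e ++ x ++ e ++ y ++ e) e ∧
      SE (KStar.kstar K) (e ++ y ++ e ++ x ++ e) e)
    (W : Set (List α)) (hWc : ∀ x ∈ W, ∀ y ∈ W, x ++ y ∈ W)
    (hWs : ∀ k, ∃ x ∈ W, V' x k)
    (hWK : ∀ x ∈ W, ∀ y ∈ W, SE K x y)
    (w : List α) (hw : w ∈ W) (hwne : w ≠ []) (hw1 : V' w 1) (hww : SE (KStar.kstar K) (w ++ w) w)
    (hwp : ∀ x ∈ W, ∃ k, 0 < k ∧ SE (KStar.kstar K) (pw (w ++ x ++ w) k) w)
    (hyp : ∀ u g, V u g → SE (KStar.kstar K) (e ++ u ++ e) e → g = 1) :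
    ∀ y u : G', (f 1)⁻¹ * f u = (f y)⁻¹ * f (y * u) := by
  intro y u
  set L : Language α := KStar.kstar K with hL
  obtain ⟨Y, hY, hVY⟩ := hWs y
  obtain ⟨X, hX, hVX⟩ := hWs u
  have v1 : V (a ++ w ++ b) (f 1) := blk hw1
  have vX : V (a ++ (w ++ X ++ w) ++ b) (f u) := by
    have := blk (mul' (mul' hw1 hVX) hw1)
    simpa using this
  have vY : V (a ++ (w ++ Y ++ w) ++ b) (f y) := by
    have := blk (mul' (mul' hw1 hVY) hw1)
    simpa using this
  have vYX : V (a ++ (w ++ Y ++ w ++ X ++ w) ++ b) (f (y * u)) := by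
    have := blk (mul' (mul' (mul' (mul' hw1 hVY) hw1) hVX) hw1)
    simpa using this
  obtain ⟨y1, hy1, i1, i1'⟩ := inv _ _ v1
  obtain ⟨yY, hyY, i2, i2'⟩ := inv _ _ vY
  -- the two words act in the same way
  have main : SE L (e ++ (y1 ++ e ++ (a ++ (w ++ X ++ w) ++ b)) ++ e)
      (e ++ (yY ++ e ++ (a ++ (w ++ Y ++ w ++ X ++ w) ++ b)) ++ e) := by
    intro s t
    set s1 := s ++ e ++ y1 ++ e with hs1
    set s2 := s ++ e ++ yY ++ e with hs2
    have H1 : RE L (s1 ++ (a ++ w ++ b) ++ e) (s ++ e) := by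
      have := i1'.re s
      simpa [hs1, List.append_assoc] using this
    have H2 : RE L (s2 ++ (a ++ (w ++ Y ++ w) ++ b) ++ e) (s ++ e) := by
      have := i2'.re s
      simpa [hs2, List.append_assoc] using this
    by_cases hq : ∃ t0, s ++ e ++ t0 ∈ L
    swap
    · apply iff_of_false
      · intro h
        apply hq
        refine ⟨y1 ++ e ++ (a ++ (w ++ X ++ w) ++ b) ++ e ++ t, ?_⟩
        simpa [List.append_assoc] using h
      · intro h
        apply hq
        refine ⟨yY ++ e ++ (a ++ (w ++ Y ++ w ++ X ++ w) ++ b) ++ e ++ t, ?_⟩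
        simpa [List.append_assoc] using h
    obtain ⟨t0, ht0⟩ := hq
    set r1 := s1 ++ a ++ w with hr1
    set r2 := s2 ++ a ++ (w ++ Y ++ w) with hr2
    have m1 : r1 ++ (b ++ e ++ t0) ∈ L := by
      have := (H1 t0).2 ht0
      simpa [hr1, List.append_assoc] using this
    have m2 : r2 ++ (b ++ e ++ t0) ∈ L := by
      have := (H2 t0).2 ht0
      simpa [hr2, List.append_assoc] using this
    have R1 : RE L (r1 ++ w) r1 := by
      have := hww.re (s1 ++ a)
      simpa [hr1, List.append_assoc] using this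
    have R2 : RE L (r2 ++ w) r2 := by
      have := hww.re (s2 ++ a ++ (w ++ Y))
      simpa [hr2, List.append_assoc] using this
    have N0 : ∀ r : List α, RE L (r ++ w) r → ¬ RH K D w r → ∀ Z ∈ W,
        RE L (r ++ (w ++ Z ++ w)) r := by
      intro r hr hn Z hZ
      exact nstable hK hWc hWK hw hwne hww hr hn hZ (hwp Z hZ)
    have N1 : ¬ RH K D w r1 → ∀ Z ∈ W, RE L (r1 ++ (Z ++ w)) r1 := by
      intro hn Z hZ
      have h1 := (R1.right (Z ++ w)).symm
      have h2 := N0 r1 R1 hn Z hZ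
      have h3 : RE L (r1 ++ w ++ (Z ++ w)) r1 := by
        simpa [List.append_assoc] using h2
      exact h1.trans h3
    have N2 : ¬ RH K D w r2 → ∀ Z ∈ W, RE L (r2 ++ (Z ++ w)) r2 := by
      intro hn Z hZ
      have h1 := (R2.right (Z ++ w)).symm
      have h2 := N0 r2 R2 hn Z hZ
      have h3 : RE L (r2 ++ w ++ (Z ++ w)) r2 := by
        simpa [List.append_assoc] using h2
      exact h1.trans h3
    -- it suffices to compare `r1` and `r2`
    have suff : RE L (r1 ++ (X ++ w) ++ (b ++ e)) (r2 ++ (X ++ w) ++ (b ++ e)) := by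
      have fin : RE L r1 r2 → RE L (r1 ++ (X ++ w) ++ (b ++ e)) (r2 ++ (X ++ w) ++ (b ++ e)) :=
        fun h => (h.right _).right _
      by_cases c1 : RH K D w r1
      · by_cases c2 : RH K D w r2
        · -- both have resolved cuts
          apply fin
          exact both_hit hK R1 R2 c1 c2 m1 m2
        · -- `r2` is not cut
          apply fin
          obtain ⟨k, hk, hk'⟩ := hwp Y hY
          obtain ⟨k, rfl⟩ : ∃ k', k = k' + 1 := ⟨k - 1, by omega⟩
          have q1 : RE L (r2 ++ pw (w ++ Y ++ w) k) r2 := pw_re (N0 r2 R2 c2 Y hY) k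
          have q2 : RE L (s2 ++ a ++ w) r2 := by
            have h1 := hk'.re (s2 ++ a)
            rw [pw_succ] at h1
            have h2 : RE L (s2 ++ a ++ (w ++ Y ++ w ++ pw (w ++ Y ++ w) k)) r2 := by
              simpa [hr2, List.append_assoc] using q1
            exact h1.symm.trans h2
          have q3 : RE L (s ++ e) (s2 ++ (a ++ w ++ b) ++ e) := by
            have h1 : RE L (s2 ++ a ++ w ++ (b ++ e)) (r2 ++ (b ++ e)) := q2.right _
            have h2 : RE L (r2 ++ (b ++ e)) (s ++ e) := by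
              simpa [hr2, List.append_assoc] using H2
            have h3 := (h1.trans h2).symm
            simpa [List.append_assoc] using h3
          have q4 : RE L s1 s2 := by
            have h1 := (q3.right y1).right e
            have h2 : RE L (s2 ++ (a ++ w ++ b) ++ e ++ y1 ++ e) s2 := by
              have := i1.re (s ++ e ++ yY)
              simpa [hs2, List.append_assoc] using this
            exact h1.trans h2
          exact ((q4.right a).right w).trans q2
      · by_cases c2 : RH K D w r2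
        · -- `r1` is not cut
          apply fin
          have n1 := N1 c1 Y hY
          have q3 : RE L (s ++ e) (s1 ++ (a ++ (w ++ Y ++ w) ++ b) ++ e) := by
            have h1 : RE L (r1 ++ (Y ++ w) ++ (b ++ e)) (r1 ++ (b ++ e)) := n1.right _
            have h2 : RE L (r1 ++ (b ++ e)) (s ++ e) := by
              simpa [hr1, List.append_assoc] using H1
            have h3 := (h1.trans h2).symm
            simpa [hr1, List.append_assoc] using h3
          have q4 : RE L s2 s1 := by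
            have h1 := (q3.right yY).right e
            have h2 : RE L (s1 ++ (a ++ (w ++ Y ++ w) ++ b) ++ e ++ yY ++ e) s1 := by
              have := i2.re (s ++ e ++ y1)
              simpa [hs1, List.append_assoc] using this
            exact h1.trans h2
          have q5 : RE L r2 (s1 ++ a ++ (w ++ Y ++ w)) := (q4.right a).right _
          have q6 : RE L (s1 ++ a ++ (w ++ Y ++ w)) r1 := by
            simpa [hr1, List.append_assoc] using n1
          exact (q5.trans q6).symm
        · -- neither is cut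
          have n1 := (N1 c1 _ hX).right (b ++ e)
          have n2 := (N2 c2 _ hX).right (b ++ e)
          have h1 : RE L (r1 ++ (b ++ e)) (s ++ e) := by
            simpa [hr1, List.append_assoc] using H1
          have h2 : RE L (r2 ++ (b ++ e)) (s ++ e) := by
            simpa [hr2, List.append_assoc] using H2
          exact n1.trans (h1.trans (h2.symm.trans n2.symm))
    have := suff t
    simpa [hr1, hr2, hs1, hs2, List.append_assoc] using this
  -- conclusion
  have vA : V (y1 ++ e ++ (a ++ (w ++ X ++ w) ++ b)) ((f 1)⁻¹ * f u) := by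
    have := mul (mul hy1 he1) vX
    simpa using this
  have vB : V (yY ++ e ++ (a ++ (w ++ Y ++ w ++ X ++ w) ++ b)) ((f y)⁻¹ * f (y * u)) := by
    have := mul (mul hyY he1) vYX
    simpa using this
  obtain ⟨z, hz, j1, j2⟩ := inv _ _ vA
  have vC := mul (mul hz he1) vB
  have hC := hyp _ _ vC (by
    have h1 := (main.left (e ++ z)).symm
    have h2 : SE L (e ++ z ++ (e ++ (y1 ++ e ++ (a ++ (w ++ X ++ w) ++ b)) ++ e)) e := by
      simpa [List.append_assoc] using j2
    have h3 := h1.trans h2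
    simpa [List.append_assoc] using h3)
  rw [mul_one] at hC
  exact (inv_mul_eq_one.1 hC)

end Pool.Agent.H643R2.EX
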